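import Pool.Agent.H300R3.WG.Fail
import Pool.Agent.H300R3.WG.Exist
import Pool.Agent.H300R3.WG.Unique

set_option autoImplicit false
open scoped Manifold ContDiff Topology
open Set
open Pool.Agent.NKM Pool.Agent.H300R3.WG

namespace Pool.Agent.Results.MP_8d5978_gt.NotStrictlyPositive

/-- Weak geodesics between Kähler metrics need not be strictly positive: on a compact Riemann
surface (an elliptic curve) there are two Kähler forms in one class such that, for every annulus
`{a < |z| < b}`, the weak geodesic joining them exists, is unique, and none of its slices over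
the annulus is a strictly positive current. -/
theorem result : ∃ (X : Type) (_ : TopologicalSpace X) (_ : T2Space X) (_ : CompactSpace X)
    (_ : ConnectedSpace X) (_ : ChartedSpace (Fin 1 → ℂ) X)
    (_ : IsManifold 𝓘(ℂ, Fin 1 → ℂ) ω X) (g : HermitianMetric 1 X) (φ₁ φ₂ : X → ℝ),
    IsKahler g ∧ IsKahlerPotential g φ₁ ∧ IsKahlerPotential g φ₂ ∧
    ∀ a b : ℝ, 0 < a → a < b →
      (∃ φ, IsWeakGeodesic g φ₁ φ₂ a b φ) ∧
      (∀ φ ψ, IsWeakGeodesic g φ₁ φ₂ a b φ → IsWeakGeodesic g φ₁ φ₂ a b ψ →
        ∀ (x : X), ∀ z ∈ closedAnnulus a b, φ x z = ψ x z) ∧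
      ∀ φ, IsWeakGeodesic g φ₁ φ₂ a b φ → ∀ z ∈ annulus a b,
        ¬ IsStrictlyPositive g (fun x => φ x z) := by
  refine ⟨XT, inferInstance, inferInstance, inferInstance, inferInstance, inferInstance,
    inferInstance, gT, pot1, pot2, isKahler_gT, isKahlerPotential_pot1, isKahlerPotential_pot2,
    fun a b ha hab => ⟨⟨env a b, env_isWeakGeodesic ha hab⟩, ?_, ?_⟩⟩
  · intro φ ψ h h' x z hz
    exact weakGeodesic_unique h h' x z hz
  · intro φ h z hz
    exact not_strictlyPositive ha hab h hz

end Pool.Agent.Results.MP_8d5978_gt.NotStrictlyPositive
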